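import Pool.Agent.H40.PM.Chain

/-!
MP_40554b_lc: lower bound for the competitive ratio of `k`-page migration algorithms with a
bounded memory.

The definitions (`Pool.Agent.H40.PM.Conf`, `dst`, `serv`, `mv`, `opt`, `Alg`, `ecost`) are in
`Pool/Agent/H40/PM/Defs.lean`.
-/

set_option autoImplicit false

open Finset Function MeasureTheory

namespace Pool.Agent.Results.MP_40554b_lc.MemoryBound

open Pool.Agent.H40.PM

/-- Let `k ≥ 1`, `D ≥ 1`. Consider `k`-page migration on the uniform metric space with `k+1`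
points and a randomized online algorithm whose knowledge about the past consists of the
positions of the pages, an element of a finite set `S` and the clock; the algorithm may use fresh
randomness in every step and in addition a random seed `ω` of arbitrary length which is read-only.
If the algorithm is `ρ`-competitive against the oblivious adversary (with some additive
constant `α`), then `k ≤ 800 (ρ+1) (log₂ |S| + log₂ k + 2)`. -/
theorem result {k : ℕ} (hk : 1 ≤ k) {S : Type} [Fintype S] [Nonempty S] {D : ℝ} (hD : 1 ≤ D)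
    {Ω : Type} [MeasurableSpace Ω] (μ : Measure Ω) [IsProbabilityMeasure μ]
    (A : Ω → Alg k S) (s₀ : Ω → S) (c₀ : Conf k)
    (hint : ∀ σ : List (Fin (k + 1)),
      Integrable (fun ω => ecost (A ω) D 0 (c₀, s₀ ω) σ) μ)
    {ρ α : ℝ} (hρ : 0 ≤ ρ)
    (hcomp : ∀ σ : List (Fin (k + 1)),
      ∫ ω, ecost (A ω) D 0 (c₀, s₀ ω) σ ∂μ ≤ ρ * opt D c₀ σ + α) :
    (k : ℝ) ≤ 800 * (ρ + 1) * (Real.logb 2 (Fintype.card S) + Real.logb 2 k + 2) := by
  have hk' : 0 < k := hk
  have hkr : (1 : ℝ) ≤ k := by exact_mod_cast hk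
  have hS : (1 : ℝ) ≤ (Fintype.card S : ℝ) := by exact_mod_cast Fintype.card_pos (α := S)
  have hl2 : 0 < Real.log 2 := Real.log_pos (by norm_num)
  set a : ℝ := Real.logb 2 (Fintype.card S) with ha
  set b : ℝ := Real.logb 2 k with hb
  have ha0 : 0 ≤ a := Real.logb_nonneg (by norm_num) hS
  have hb0 : 0 ≤ b := Real.logb_nonneg (by norm_num) hkr
  rcases le_or_gt k 10 with h10 | h10
  · have h1 : (k : ℝ) ≤ 10 := by exact_mod_cast h10
    have h2 : (1 : ℝ) * 2 ≤ (ρ + 1) * (a + b + 2) :=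
      mul_le_mul (by linarith) (by linarith) (by norm_num) (by linarith)
    nlinarith
  have hlS : Real.log (Fintype.card S) = a * Real.log 2 := by
    rw [ha, Real.logb, div_mul_cancel₀ _ hl2.ne']
  have hlk : Real.log k = b * Real.log 2 := by
    rw [hb, Real.logb, div_mul_cancel₀ _ hl2.ne']
  have hl6 : Real.log 6 ≤ 3 * Real.log 2 := by
    have h1 : Real.log 8 = 3 * Real.log 2 := by
      rw [show (8 : ℝ) = 2 ^ 3 by norm_num, Real.log_pow]
      norm_num
    rw [← h1]
    exact Real.log_le_log (by norm_num) (by norm_num)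
  have hl6' : 0 ≤ Real.log 6 := Real.log_nonneg (by norm_num)
  have hlk8 : 3 * Real.log 2 ≤ Real.log k := by
    have h1 : Real.log 8 = 3 * Real.log 2 := by
      rw [show (8 : ℝ) = 2 ^ 3 by norm_num, Real.log_pow]
      norm_num
    rw [← h1]
    apply Real.log_le_log (by norm_num)
    have : (10 : ℝ) < k := by exact_mod_cast h10
    linarith
  have hlS0 : 0 ≤ Real.log (Fintype.card S : ℝ) := Real.log_nonneg hS
  have hl2a := Real.log_two_gt_d9
  have hl2b := Real.log_two_lt_d9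
  set Λ : ℝ := Real.log (Fintype.card S) + Real.log 6 + 2 * Real.log k with hΛ
  have hΛ4 : 4 ≤ Λ := by rw [hΛ]; linarith
  have h10r : (10 : ℝ) < k := by exact_mod_cast h10
  set n : ℕ := ⌊((k : ℝ) / 2 - 5) / (16 * Λ)⌋₊ with hn
  have hpos : 0 ≤ ((k : ℝ) / 2 - 5) / (16 * Λ) := by
    apply div_nonneg <;> linarith
  have hn1 : (n : ℝ) ≤ ((k : ℝ) / 2 - 5) / (16 * Λ) := Nat.floor_le hpos
  have hn2 : ((k : ℝ) / 2 - 5) / (16 * Λ) < n + 1 := Nat.lt_floor_add_one _
  have h16 : 0 < 16 * Λ := by linarith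
  rw [le_div_iff₀ h16] at hn1
  rw [div_lt_iff₀ h16] at hn2
  have hn3 : 5 + 16 * ((n : ℝ) * (Real.log (Fintype.card S) + Real.log 6 + 2 * Real.log k)) ≤
      k / 2 := by
    rw [← hΛ]
    linarith
  have hD0 : 0 < D := by linarith
  -- the comparison of the costs
  have hmain : ∀ m : ℕ, (m : ℝ) * (D * n / 8) ≤
      ρ * ((1 + D * k) + m * (1 + D)) + α := by
    intro m
    set Φ := avEs k ⌈D⌉₊ n m with hΦ
    have h1 := intOK_avEs (k := k) (μ := μ) ⌈D⌉₊ n m
      (fun ω => ecost (A ω) D 0 (c₀, s₀ ω)) hint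
    have h2 : (m : ℝ) * (D * n / 8) ≤ ∫ ω, Φ (ecost (A ω) D 0 (c₀, s₀ ω)) ∂μ := by
      have h3 : ∫ _ω, (m : ℝ) * (D * n / 8) ∂μ ≤ ∫ ω, Φ (ecost (A ω) D 0 (c₀, s₀ ω)) ∂μ := by
        apply integral_mono (integrable_const _) h1.1
        intro ω
        exact avEs_ecost_ge hk' (A ω) hD0 (Nat.le_ceil D) n hn3 m 0 (c₀, s₀ ω)
      simpa using h3
    rw [← h1.2] at h2
    have h4 : Φ (fun σ => ∫ ω, ecost (A ω) D 0 (c₀, s₀ ω) σ ∂μ) ≤
        Φ (ρ • opt D c₀ + fun _ => α) := by
      apply supp_avEs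
      intro σ _
      exact hcomp σ
    rw [map_add, map_smul, mass_avEs hk', smul_eq_mul] at h4
    have h5 := avEs_opt_le' hk' hD0.le ⌈D⌉₊ n m c₀
    have h6 := mul_le_mul_of_nonneg_left h5 hρ
    linarith
  have hn16 : (n : ℝ) ≤ 16 * ρ := by
    have h1 : D * n / 8 ≤ ρ * (1 + D) := by
      by_contra hlt
      push Not at hlt
      obtain ⟨m, hm⟩ := exists_nat_gt ((ρ * (1 + D * k) + α) / (D * n / 8 - ρ * (1 + D)))
      have hd : 0 < D * n / 8 - ρ * (1 + D) := by linarith
      rw [div_lt_iff₀ hd] at hm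
      have h2 := hmain m
      nlinarith
    have h2 : ρ * (1 + D) ≤ ρ * (2 * D) := mul_le_mul_of_nonneg_left (by linarith) hρ
    have h3 : D * n ≤ D * (16 * ρ) := by linarith
    exact le_of_mul_le_mul_left h3 hD0
  have hfin1 : (k : ℝ) ≤ 544 * ((ρ + 1) * Λ) := by
    have h1 : ((n : ℝ) + 1) * (16 * Λ) ≤ (16 * ρ + 1) * (16 * Λ) :=
      mul_le_mul_of_nonneg_right (by linarith) (by linarith)
    have h2 : 0 ≤ ρ * Λ := mul_nonneg hρ (by linarith)
    nlinarith
  have hfin2 : Λ ≤ (Real.log 2) * (a + 2 * b + 3) := by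
    rw [hΛ, hlS, hlk]
    nlinarith
  have hfin3 : 544 * Λ ≤ 800 * (a + b + 2) := by
    have h1 : Real.log 2 * (a + 2 * b + 3) ≤ 0.6931471808 * (a + 2 * b + 3) :=
      mul_le_mul_of_nonneg_right hl2b.le (by linarith)
    linarith
  have hfin4 := mul_le_mul_of_nonneg_left hfin3 (show 0 ≤ ρ + 1 by linarith)
  linarith

end Pool.Agent.Results.MP_40554b_lc.MemoryBound
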